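import Pool.Agent.QUD.StmtsV

set_option autoImplicit false

namespace Pool.Agent.QUD.H2

open Real

/-- the two side lengths and the area for two items of the type B -/
theorem tib_aux {a b c L l1 l2 l3 l4 : ℝ} (hL : 0 < L) (h : Tq a b c L l1 l2 l3 l4)
    (ha : π / 2 < a) (hb : b < π / 2) (hc : c < π / 2) :
    0 < sin b ∧ 0 < sin c ∧ l1 = L / 2 * (1 / sin b) ∧ l2 = L / 2 * (1 / sin c) ∧
      ar4 b c l1 l2 l3 l4 = L / 4 * (l3 + l4) := by
  have hb0 : 0 < b := h.kb.2.2.1
  have hc0 : 0 < c := h.kc.2.2.1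
  have sb : 0 < sin b := sin_pos_of_pos_of_lt_pi hb0 (by linarith [pi_pos])
  have sc : 0 < sin c := sin_pos_of_pos_of_lt_pi hc0 (by linarith [pi_pos])
  have va : sv a = 1 := by
    unfold sv
    rw [if_neg (by linarith)]
  have vb : sv b = sin b := by
    unfold sv
    rw [if_pos hb]
  have vc : sv c = sin c := by
    unfold sv
    rw [if_pos hc]
  have e1 := h.e1
  have e2 := h.e2
  rw [va, vb, mul_one] at e1
  rw [va, vc, mul_one] at e2
  refine ⟨sb, sc, ?_, ?_, ?_⟩
  · rw [e1]
    field_simp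
  · rw [e2]
    field_simp
  · unfold ar4
    have h1 : l1 * l4 * sin b = L / 2 * l4 := by rw [e1]; ring
    have h2 : l2 * l3 * sin c = L / 2 * l3 := by rw [e2]; ring
    rw [h1, h2]
    ring

/-- TIB: two items of the type B on both sides. -/
theorem tib (hcvx : CvxStmt) : TibStmt := by
  intro a b c b' c' L l1 l2 l3 l4 l1' l2' l3' l4' hL h h' har hper ha hb hc hb' hc' hC
  obtain ⟨sb, sc, e1, e2, e3⟩ := tib_aux hL h ha hb hc
  obtain ⟨sb', sc', e1', e2', e3'⟩ := tib_aux hL h' ha hb' hc'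
  have h34 : l3 + l4 = l3' + l4' := by
    have hh : L / 4 * (l3 + l4) = L / 4 * (l3' + l4') := by rw [← e3, ← e3', har]
    exact mul_left_cancel₀ (by positivity) hh
  have h12 : l1 + l2 = l1' + l2' := by linarith
  have hs : 1 / sin b + 1 / sin c = 1 / sin b' + 1 / sin c' := by
    have hh : L / 2 * (1 / sin b + 1 / sin c) = L / 2 * (1 / sin b' + 1 / sin c') := by
      rw [mul_add, mul_add, ← e1, ← e2, ← e1', ← e2', h12]
    exact mul_left_cancel₀ (by positivity) hh
  have kb := h.kb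
  have kc := h.kc
  have kb' := h'.kb
  have kc' := h'.kc
  unfold Kil at kb kc kb' kc'
  simp only at kb kc kb' kc'
  exact (hcvx a b c ha kb.2.1 (by linarith) hb.le (by linarith) hc.le).1 b' c'
    (by linarith) hb'.le (by linarith) hc'.le hs hC

end Pool.Agent.QUD.H2
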